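import Pool.Agent.H51.T7.Engine
import Pool.Agent.H51.T7.Len
import Pool.Graph.R_pool_sql_team_seeded_64922ed1.X95T.HG3

/-!
Integral points of the curves `y ^ 2 = x ^ 3 + A x + B` with a rational point of order five: the
proof of the library (`FiveTorsion`) with the condition on common prime factors.
-/

set_option autoImplicit false

namespace Pool.Agent.H51.T5

open Polynomial Pool.Agent.X95T

/-- the bound for the curves with a point of order five -/
theorem five' : ∃ M : ℕ, ∀ S : Finset ℕ, ∃ K : ℕ, ∀ A B u v l u' v' l' : ℤ,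
    4 * A ^ 3 + 27 * B ^ 2 ≠ 0 → v ^ 2 = u ^ 3 + A * u + B → u' ≠ u →
    2 * v * l = 3 * u ^ 2 + A → l ^ 2 = 2 * u + u' → -v' = v + l * (u' - u) →
    l' ^ 2 = 2 * u' + u → v = v' + l' * (u - u') →
    ∀ x y : ℤ, y ^ 2 = x ^ 3 + A * x + B →
      (∀ q : ℕ, q.Prime → (q : ℤ) ∣ x - u → (q : ℤ) ∣ u' - u → q ∈ S) →
      max x.natAbs y.natAbs ≤ K * (max A.natAbs B.natAbs) ^ M := by
  obtain ⟨K₀, hK₀⟩ := Pool.Agent.H51.T7.common 5 2 1 Nat.prime_five (by norm_num) (by norm_num)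
    (by norm_num) (by norm_num)
  refine ⟨45 * K₀ + 1, fun S => ?_⟩
  obtain ⟨c, hc⟩ := hK₀ S
  obtain ⟨Z, hZ⟩ : ∃ Z, Z = (c + 1) * (69 * 184775 ^ 15) := ⟨_, rfl⟩
  refine ⟨3 * Z ^ (3 * K₀), ?_⟩
  intro A B u v l u' v' l' hD hT hne h1 h2 h3 h5 h6 x y hE hS
  obtain ⟨H, hHd⟩ : ∃ H, H = max A.natAbs B.natAbs := ⟨_, rfl⟩
  rw [← hHd]
  have hAH : A.natAbs ≤ H := hHd ▸ le_max_left _ _
  have hBH : B.natAbs ≤ H := hHd ▸ le_max_right _ _
  have hH1 : 1 ≤ H := by
    by_contra h0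
    have hA0 : A = 0 := by omega
    have hB0 : B = 0 := by omega
    rw [hA0, hB0] at hD
    norm_num at hD
  -- the parameters
  obtain ⟨s, hs⟩ : ∃ s, s = l' - l := ⟨_, rfl⟩
  obtain ⟨t, ht⟩ : ∃ t, t = l + l' := ⟨_, rfl⟩
  have hst : s * t = u' - u := by rw [hs, ht]; linear_combination h5 - h2
  have hst0 : s * t ≠ 0 := by rw [hst]; exact sub_ne_zero.2 hne
  have hs0 : s ≠ 0 := left_ne_zero_of_mul hst0
  have ht0 : t ≠ 0 := right_ne_zero_of_mul hst0
  have h2l : 2 * l = t - s := by rw [hs, ht]; ring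
  have h2v : 2 * v = -(s * t ^ 2) := by
    have : s * t ^ 2 = (u' - u) * t := by rw [← hst]; ring
    rw [this, ht]
    linear_combination -h3 + h6
  have h3u : 3 * u = l ^ 2 - s * t := by rw [hst]; linear_combination -h2
  have hA : 48 * A = -(t ^ 4 + 12 * s * t ^ 3 + 14 * s ^ 2 * t ^ 2 - 12 * s ^ 3 * t + s ^ 4) := by
    have e1 : A = 2 * v * l - 3 * u ^ 2 := by linear_combination -h1
    have e2 : 48 * A = 24 * (2 * v) * (2 * l) - 16 * (3 * u) ^ 2 := by rw [e1]; ring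
    have e3 : 16 * (3 * u) ^ 2 = ((2 * l) ^ 2 - 4 * (s * t)) ^ 2 := by rw [h3u]; ring
    rw [e2, e3, h2v, h2l]
    ring
  have hB : 864 * B = -(-t ^ 6 - 18 * s * t ^ 5 - 75 * s ^ 2 * t ^ 4 - 75 * s ^ 4 * t ^ 2 +
      18 * s ^ 5 * t - s ^ 6) := by
    have e1 : B = v ^ 2 - u ^ 3 - A * u := by linear_combination -hT
    have e2 : 864 * B = 216 * (2 * v) ^ 2 - 32 * (3 * u) ^ 3 - 6 * (48 * A) * (3 * u) := by
      rw [e1]; ring
    have e3 : 4 * (3 * u) = (t - s) ^ 2 - 4 * (s * t) := by rw [h3u, ← h2l]; ring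
    have e4 : 2 * (864 * B) = 432 * (2 * v) ^ 2 - (4 * (3 * u)) ^ 3 -
        3 * (48 * A) * (4 * (3 * u)) := by rw [e2]; ring
    rw [e3, h2v, hA] at e4
    linarith
  have hm4 : ∀ m : ℕ, m = max s.natAbs t.natAbs → m ^ 4 ≤ 184775 * H := by
    intro m hm
    have hmR : (m : ℝ) = max |(s : ℝ)| |(t : ℝ)| := by
      rw [hm]
      push_cast
      rw [Nat.cast_natAbs, Nat.cast_natAbs]
      push_cast
      rfl
    have hm1 : 1 ≤ m := by
      rw [hm]
      exact le_max_of_le_left (Int.natAbs_pos.2 hs0)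
    have hcast : ∀ z : ℤ, z.natAbs ≤ H → |(z : ℝ)| ≤ H := by
      intro z hz
      rw [← Int.cast_abs, ← Int.natCast_natAbs]
      exact_mod_cast hz
    have hAR := hcast A hAH
    have hBR := hcast B hBH
    have e1 : fo C4 s t = -(48 * A) := by
      have h7 : (48 * A : ℝ) = -(t ^ 4 + 12 * s * t ^ 3 + 14 * s ^ 2 * t ^ 2 - 12 * s ^ 3 * t +
          s ^ 4) := by exact_mod_cast hA
      rw [h7]
      simp only [fo, C4, List.length_cons, List.length_nil, Finset.sum_range_succ,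
        Finset.sum_range_zero, List.getD_cons_succ, List.getD_cons_zero]
      norm_num
      ring
    have e2 : fo C6 s t = -(864 * B) := by
      have h7 : (864 * B : ℝ) = -(-t ^ 6 - 18 * s * t ^ 5 - 75 * s ^ 2 * t ^ 4 -
          75 * s ^ 4 * t ^ 2 + 18 * s ^ 5 * t - s ^ 6) := by exact_mod_cast hB
      rw [h7]
      simp only [fo, C6, List.length_cons, List.length_nil, Finset.sum_range_succ,
        Finset.sum_range_zero, List.getD_cons_succ, List.getD_cons_zero]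
      norm_num
      ring
    have := par5 s t m H hmR (by exact_mod_cast hm1)
      (by rw [e1, abs_neg, abs_mul]; norm_num; exact hAR)
      (by rw [e2, abs_neg, abs_mul]; norm_num; exact hBR)
    exact_mod_cast this
  obtain ⟨m, hm⟩ : ∃ m, m = max s.natAbs t.natAbs := ⟨_, rfl⟩
  have hm4 := hm4 m hm
  have hsm : s.natAbs ≤ m := hm ▸ le_max_left _ _
  have htm : t.natAbs ≤ m := hm ▸ le_max_right _ _
  have hm1 : 1 ≤ m := (Int.natAbs_pos.2 hs0).trans_le hsm
  -- everything is at most `m ^ 3`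
  obtain ⟨n, hn⟩ : ∃ n, n = m ^ 3 := ⟨_, rfl⟩
  have hn1 : 1 ≤ n := hn ▸ Nat.one_le_pow _ _ hm1
  have hmn : m ≤ n := hn ▸ Nat.le_self_pow (by norm_num) _
  have hmm : m ≤ m ^ 2 := Nat.le_self_pow (by norm_num) _
  have hm2n : m ^ 2 ≤ n := hn ▸ Nat.pow_le_pow_right hm1 (by norm_num)
  have hln : l.natAbs ≤ m := by omega
  have hvn : v.natAbs ≤ n := by
    have e1 : (2 * v).natAbs ≤ m ^ 3 := by
      rw [h2v, Int.natAbs_neg, Int.natAbs_mul, Int.natAbs_pow]
      calc _ ≤ m * m ^ 2 := Nat.mul_le_mul hsm (Nat.pow_le_pow_left htm _)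
        _ = _ := by ring
    omega
  have hun : u.natAbs ≤ n := by
    have e1 : (3 * u).natAbs ≤ 2 * m ^ 2 := by
      rw [h3u]
      refine (Int.natAbs_sub_le _ _).trans ?_
      rw [Int.natAbs_pow, Int.natAbs_mul]
      have e2 := Nat.pow_le_pow_left hln 2
      have e3 := Nat.mul_le_mul hsm htm
      rw [← pow_two] at e3
      omega
    omega
  have htn : t.natAbs ≤ n := htm.trans hmn
  have hln' : l.natAbs ≤ n := hln.trans hmn
  -- the torsion function
  set Ap : ℤ[X] := C (-(l + t)) * X ^ 2 + C (2 * (l + t) * u - v - t ^ 2 * l) * X +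
    C (-((l + t) * u ^ 2) + (v + t ^ 2 * l) * u - t ^ 2 * v) with hAp
  set up : ℤ[X] := X - C u with hup
  have hupd : up.natDegree = 1 := natDegree_X_sub_C u
  have huplc : up.leadingCoeff = 1 := leadingCoeff_X_sub_C u
  have hnorm : Ap ^ 2 - wcub A B * (X - C u + C (t ^ 2)) ^ 2 = C (-1) * up ^ 5 := by
    have hAe : A = 2 * v * l - 3 * u ^ 2 := by linear_combination -h1
    have hBe : B = v ^ 2 - u ^ 3 - (2 * v * l - 3 * u ^ 2) * u := by
      rw [← hAe]; linear_combination -hT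
    have hl2 : (C l : ℤ[X]) ^ 2 = 3 * C u + (C t - 2 * C l) * C t := by
      have e1 : l ^ 2 = 3 * u + (t - 2 * l) * t := by
        have : s = t - 2 * l := by rw [h2l]; ring
        rw [← this]
        linear_combination -h3u
      rw [← C_pow, e1]
      simp only [C_add, C_mul, C_sub, map_ofNat]
    have hv2 : 2 * (C v : ℤ[X]) = -((C t - 2 * C l) * C t ^ 2) := by
      have e1 : 2 * v = -((t - 2 * l) * t ^ 2) := by
        have : s = t - 2 * l := by rw [h2l]; ring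
        rw [← this]
        exact h2v
      have e2 := congrArg (C : ℤ → ℤ[X]) e1
      simpa only [C_neg, C_mul, C_sub, C_pow, map_ofNat] using e2
    rw [hAp, hup, wcub, hAe, hBe]
    simp only [C_add, C_mul, C_sub, C_pow, C_neg, map_ofNat, C_1]
    set x := (X : ℤ[X]) - C u with hx
    have hX : (X : ℤ[X]) = x + C u := by rw [hx]; ring
    rw [hX]
    linear_combination x ^ 2 * (x + C t ^ 2) ^ 2 * hl2 + x ^ 2 * C t * (x + C t ^ 2) * hv2
  set Bp : ℤ[X] := X - C u + C (t ^ 2) with hBp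
  have hBp0 : Bp ≠ 0 := by
    have h7 : Bp = X - C (u - t ^ 2) := by
      rw [hBp, C_sub]; ring
    rw [h7]
    exact X_sub_C_ne_zero _
  have hodd : Odd (wcub A B).natDegree := by
    rw [wcub_deg]
    decide
  have hsupp : ∀ s ∈ (quad (-(C 2 * Ap)) (C (-1) * up ^ 5) - MvPolynomial.X 1 ^ 2 +
      MvPolynomial.X 0 ^ (5 * 1)).support, 2 * s 0 + (5 * 1) * s 1 < (5 * 1) * 2 := by
    have h1 := hyp_lf_one 5 1 (wcub A B) Ap Bp up (-1) (by norm_num) hodd hBp0 hnorm hupd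
      (by decide)
    have h2 : quad (-(C 2 * Ap)) (C (-1) * up ^ 5) - lf 1 (-(-1 * up.leadingCoeff ^ 5)) 2 (5 * 1) 1 =
        quad (-(C 2 * Ap)) (C (-1) * up ^ 5) - MvPolynomial.X 1 ^ 2 +
          MvPolynomial.X 0 ^ (5 * 1) := by
      rw [huplc, lf]
      simp only [one_pow, mul_one, neg_neg, map_one, one_mul, _root_.pow_one]
      ring
    rw [h2] at h1
    intro s hs
    have := h1 s hs
    omega
  have hline : MvPolynomial.aeval ![X, (0 : ℤ[X])] (quad (-(C 2 * Ap)) (C (-1) * up ^ 5)) =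
      - up ^ 5 := by
    rw [line_quad, C_neg, C_1]
    ring
  have hUV : (-(2 * (C (-v) + C (-(l + t)) * up + C (-(t ^ 2 * l))))) * up +
      (-1) * MvPolynomial.aeval ![X, (0 : ℤ[X])]
        (MvPolynomial.pderiv 1 (quad (-(C 2 * Ap)) (C (-1) * up ^ 5))) =
      C (-(2 * t ^ 2 * v)) := by
    rw [deriv_quad, hAp, hup]
    simp only [C_add, C_mul, C_sub, C_pow, C_neg, map_ofNat]
    ring
  have hirr : ∀ a : ℤ, a ≠ 0 → Irreducible (MvPolynomial.map (Int.castRingHom ℚ)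
      (MvPolynomial.aeval ![MvPolynomial.X 0, MvPolynomial.C a * MvPolynomial.X 1 ^ 5]
        (quad (-(C 2 * Ap)) (C (-1) * up ^ 5)) : MvPolynomial (Fin 2) ℤ)) := by
    intro a ha
    exact irr_quad (p := 5) (by norm_num) (wcub A B) Ap Bp up (-1) (by norm_num)
      (wcub_sq A B hD) hodd hBp0 (by rw [hupd, wcub_deg]; norm_num) hnorm a ha
  have hy' : y ^ 2 = (wcub A B).eval x := by rw [wcub_eval]; exact hE
  have hnx : (Ap.eval x + Bp.eval x * y) * (Ap.eval x - Bp.eval x * y) = -(x - u) ^ 5 := by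
    have h1 := congrArg (Polynomial.eval x) hnorm
    rw [eval_sub, eval_mul, eval_pow, eval_pow, eval_mul, eval_pow, eval_C] at h1
    have h2 : up.eval x = x - u := by rw [hup]; simp
    rw [h2] at h1
    linear_combination h1 - (Bp.eval x) ^ 2 * hy'
  have hpt : MvPolynomial.eval ![x, Ap.eval x + Bp.eval x * y]
      (quad (-(C 2 * Ap)) (C (-1) * up ^ 5)) = 0 := by
    rw [eval_quad]
    have h2 : up.eval x = x - u := by rw [hup]; simp
    simp only [eval_mul, eval_pow, eval_C, eval_neg, h2]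
    linear_combination -hnx
  have hprimes : ∀ q : ℕ, q.Prime → (q : ℤ) ∣ Ap.eval x + Bp.eval x * y →
      (q : ℤ) ∣ -(2 * t ^ 2 * v) → q ∈ S := by
    intro q hq hq1 hq2
    have hqZ : Prime (q : ℤ) := Nat.prime_iff_prime_int.1 hq
    have hqx : (q : ℤ) ∣ x - u := by
      have e1 : (q : ℤ) ∣ -(x - u) ^ 5 := by
        rw [← hnx]
        exact hq1.mul_right _
      exact hqZ.dvd_of_dvd_pow ((dvd_neg).1 e1)
    apply hS q hq hqx
    have h7 : -(2 * t ^ 2 * v) = s * t ^ 4 := by linear_combination -t ^ 2 * h2v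
    rw [h7] at hq2
    rw [← hst]
    rcases hqZ.dvd_or_dvd hq2 with h8 | h8
    · exact h8.mul_right _
    · exact (hqZ.dvd_of_dvd_pow h8).mul_left _
  have hmain := hc _ up _ (-1) _ hsupp hline hUV hirr x _ hpt hprimes
  have hcoeff : ∀ i, (Ap.coeff i).natAbs ≤ 6 * n ^ 4 := by
    have hn4 : n ≤ n ^ 4 := Nat.le_self_pow (by norm_num) _
    have hn2 : n ^ 2 ≤ n ^ 4 := Nat.pow_le_pow_right hn1 (by norm_num)
    have hn3 : n ^ 3 ≤ n ^ 4 := Nat.pow_le_pow_right hn1 (by norm_num)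
    have hlt : (l + t).natAbs ≤ 2 * n := (Int.natAbs_add_le _ _).trans (by omega)
    have ht2 : (t ^ 2).natAbs ≤ n ^ 2 := by
      rw [Int.natAbs_pow]; exact Nat.pow_le_pow_left htn _
    have hu2 : (u ^ 2).natAbs ≤ n ^ 2 := by
      rw [Int.natAbs_pow]; exact Nat.pow_le_pow_left hun _
    have ht2l : (t ^ 2 * l).natAbs ≤ n ^ 3 := by
      rw [Int.natAbs_mul]
      calc _ ≤ n ^ 2 * n := Nat.mul_le_mul ht2 hln'
        _ = _ := by ring
    have ht2v : (t ^ 2 * v).natAbs ≤ n ^ 3 := by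
      rw [Int.natAbs_mul]
      calc _ ≤ n ^ 2 * n := Nat.mul_le_mul ht2 hvn
        _ = _ := by ring
    apply quad_coeff
    · rw [Int.natAbs_neg]
      omega
    · have e1 : (2 * (l + t) * u).natAbs ≤ 4 * n ^ 2 := by
        rw [Int.natAbs_mul, Int.natAbs_mul]
        calc _ ≤ 2 * (2 * n) * n := Nat.mul_le_mul (Nat.mul_le_mul_left _ hlt) hun
          _ = _ := by ring
      have e2 := Int.natAbs_sub_le (2 * (l + t) * u - v) (t ^ 2 * l)
      have e3 := Int.natAbs_sub_le (2 * (l + t) * u) v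
      omega
    · have e1 : ((l + t) * u ^ 2).natAbs ≤ 2 * n ^ 3 := by
        rw [Int.natAbs_mul]
        calc _ ≤ (2 * n) * n ^ 2 := Nat.mul_le_mul hlt hu2
          _ = _ := by ring
      have e2 : ((v + t ^ 2 * l) * u).natAbs ≤ n ^ 2 + n ^ 4 := by
        rw [Int.natAbs_mul]
        calc _ ≤ (n + n ^ 3) * n := by
              apply Nat.mul_le_mul _ hun
              exact (Int.natAbs_add_le _ _).trans (Nat.add_le_add hvn ht2l)
          _ = _ := by ring
      have e3 := Int.natAbs_sub_le (-((l + t) * u ^ 2) + (v + t ^ 2 * l) * u) (t ^ 2 * v)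
      have e4 := Int.natAbs_add_le (-((l + t) * u ^ 2)) ((v + t ^ 2 * l) * u)
      rw [Int.natAbs_neg] at e4
      omega
  have hApd : Ap.natDegree ≤ 2 := by
    rw [hAp]
    exact natDegree_quadratic_le
  have hlen : ∑ s ∈ (quad (-(C 2 * Ap)) (C (-1) * up ^ 5)).support,
      ((quad (-(C 2 * Ap)) (C (-1) * up ^ 5)).coeff s).natAbs ≤ 69 * n ^ 5 := by
    have h1 := Pool.Agent.H51.T7.len_quad' Ap up (-1) 5 ((2 + 1) * (6 * n ^ 4)) (2 * n)
      ((len_px Ap).trans (len1_le Ap 2 _ hApd hcoeff)) (Pool.Agent.H51.T7.len_lin u n hn1 hun)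
    have h2 : 1 + 2 * ((2 + 1) * (6 * n ^ 4)) + (-1 : ℤ).natAbs * (2 * n) ^ 5 ≤ 69 * n ^ 5 := by
      have e1 : (-1 : ℤ).natAbs = 1 := rfl
      rw [e1, one_mul, mul_pow]
      have e2 : n ^ 4 ≤ n ^ 5 := Nat.pow_le_pow_right hn1 (by norm_num)
      have e3 : 1 ≤ n ^ 5 := Nat.one_le_pow _ _ hn1
      norm_num
      omega
    exact le_trans (by exact h1) h2
  have hn5 : n ^ 5 ≤ 184775 ^ 15 * H ^ 15 := by
    calc n ^ 5 ≤ n ^ 20 := Nat.pow_le_pow_right hn1 (by norm_num)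
      _ = (m ^ 4) ^ 15 := by rw [hn]; ring
      _ ≤ (184775 * H) ^ 15 := Nat.pow_le_pow_left hm4 _
      _ = _ := by rw [mul_pow]
  have hZ1 : 1 ≤ Z := by rw [hZ]; exact Nat.mul_pos (Nat.succ_pos _) (by norm_num)
  have hH15 : 1 ≤ H ^ 15 := Nat.one_le_pow _ _ hH1
  have hXb : x.natAbs ≤ (Z * H ^ 15) ^ K₀ := by
    refine (le_max_left _ _).trans (hmain.trans (Nat.pow_le_pow_left ?_ _))
    refine (Nat.mul_le_mul (Nat.le_succ c) (hlen.trans (Nat.mul_le_mul_left _ hn5))).trans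
      (le_of_eq ?_)
    rw [hZ, Nat.succ_eq_add_one]
    ring
  have hfin := two_coord hAH hBH hH1 (Nat.one_le_pow _ _ (Nat.mul_pos hZ1 hH15)) hXb hE
  refine hfin.trans (le_of_eq ?_)
  have e1 : ((Z * H ^ 15) ^ K₀) ^ 3 = Z ^ (3 * K₀) * H ^ (45 * K₀) := by
    rw [← pow_mul, mul_pow, ← pow_mul]
    congr 2 <;> ring
  rw [e1, pow_add, _root_.pow_one]
  ring

end Pool.Agent.H51.T5
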